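import Pool.Agent.P.MP_95c900_gt.Fox

/-!
Fox's trapezoidal conjecture for the closures of all alternating 3-braids.
-/

namespace Pool.Agent.Results.MP_95c900_gt.ThreeBraids

open Pool.Agent.P.MP_95c900_gt Polynomial

theorem result (β : List (Fin 2 × Bool)) (ε : Bool)
    (halt : ∀ s ∈ β, s = (0, ε) ∨ s = (1, !ε)) (h0 : (0, ε) ∈ β) (h1 : (1, !ε) ∈ β) :
    (∃ Δ : ℤ[X], IsAlexander β Δ) ∧ ∀ Δ : ℤ[X], IsAlexander β Δ → Trapezoidal Δ := by
  have h : β = (β.map Prod.snd).map (letter ε) := by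
    rw [List.map_map]
    conv_lhs => rw [← List.map_id β]
    refine List.map_congr_left fun s hs => ?_
    rcases halt s hs with rfl | rfl <;> cases ε <;> rfl
  have a0 : ε ∈ β.map Prod.snd := List.mem_map.2 ⟨_, h0, rfl⟩
  have a1 : (!ε) ∈ β.map Prod.snd := List.mem_map.2 ⟨_, h1, rfl⟩
  rw [h]
  cases ε
  · exact main _ _ a1 a0
  · exact main _ _ a0 a1

end Pool.Agent.Results.MP_95c900_gt.ThreeBraids
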